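import Mathlib

/-! L2 of project FQ: if A is free over B with basis 1, t and t^2 = T in B, and A is formally smooth over k,
then B is formally smooth over k. -/

namespace Pool.Agent.Helper13.FQ

open QuadraticAlgebra

/-- The quadratic case: if `B[t]/(t^2 - T)` is formally smooth over `k` then so is `B`. -/
theorem formallySmooth_of_quadratic {k : Type*} {B : Type*} [CommRing k] [CommRing B] [Algebra k B]
    (T : B) [h : Algebra.FormallySmooth k (QuadraticAlgebra B T 0)] :
    Algebra.FormallySmooth k B := by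
  refine Algebra.FormallySmooth.of_comp_surjective fun C _ _ I hI φ => ?_
  obtain ⟨c, hc⟩ := Ideal.Quotient.mk_surjective (φ T)
  -- the thickening
  let J : Ideal (QuadraticAlgebra C c 0) :=
    { carrier := {x | x.re ∈ I ∧ x.im ∈ I}
      add_mem' := fun {x y} hx hy => ⟨by simpa using I.add_mem hx.1 hy.1, by simpa using I.add_mem hx.2 hy.2⟩
      zero_mem' := ⟨by simp, by simp⟩
      smul_mem' := fun a x hx => by
        refine ⟨?_, ?_⟩
        · have : (a • x).re = a.re * x.re + c * a.im * x.im := by simp [smul_eq_mul]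
          rw [this]; exact I.add_mem (I.mul_mem_left _ hx.1) (I.mul_mem_left _ hx.2)
        · have : (a • x).im = a.re * x.im + a.im * x.re := by simp [smul_eq_mul]
          rw [this]; exact I.add_mem (I.mul_mem_left _ hx.2) (I.mul_mem_left _ hx.1) }
  have hI2 : ∀ x ∈ I, ∀ y ∈ I, x * y = 0 := fun x hx y hy => by
    have : x * y ∈ I ^ 2 := by rw [sq]; exact Ideal.mul_mem_mul hx hy
    rwa [hI] at this
  have hJmem : ∀ x : (QuadraticAlgebra C c 0), x ∈ J ↔ (x.re ∈ I ∧ x.im ∈ I) := fun x => Iff.rfl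
  have hJ : J ^ 2 = ⊥ := by
    rw [sq, eq_bot_iff, Ideal.mul_le]
    intro x hx y hy
    have hx' := (hJmem x).1 hx
    have hy' := (hJmem y).1 hy
    rw [Submodule.mem_bot]
    ext
    · have : (x * y).re = x.re * y.re + c * x.im * y.im := by simp
      rw [this, hI2 _ hx'.1 _ hy'.1, mul_assoc, hI2 _ hx'.2 _ hy'.2]; simp
    · have : (x * y).im = x.re * y.im + x.im * y.re := by simp
      rw [this, hI2 _ hx'.1 _ hy'.2, hI2 _ hx'.2 _ hy'.1]; simp
  -- C/I -> (QuadraticAlgebra C c 0)/J
  let ι : (C ⧸ I) →ₐ[k] ((QuadraticAlgebra C c 0) ⧸ J) := Ideal.Quotient.liftₐ I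
    ((Ideal.Quotient.mkₐ k J).comp (IsScalarTower.toAlgHom k C (QuadraticAlgebra C c 0))) (fun x hx => by
      change Ideal.Quotient.mk J (algebraMap C (QuadraticAlgebra C c 0) x) = 0
      rw [Ideal.Quotient.eq_zero_iff_mem, hJmem]
      exact ⟨by simpa using hx, by simp⟩)
  have hι : ∀ x : C, ι (Ideal.Quotient.mk I x) = Ideal.Quotient.mk J (algebraMap C (QuadraticAlgebra C c 0) x) := fun x => rfl
  let ψ₀ : B →ₐ[k] ((QuadraticAlgebra C c 0) ⧸ J) := ι.comp φ
  let _ : Algebra B ((QuadraticAlgebra C c 0) ⧸ J) := ψ₀.toRingHom.toAlgebra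
  have : IsScalarTower k B ((QuadraticAlgebra C c 0) ⧸ J) := IsScalarTower.of_algebraMap_eq fun x => (ψ₀.commutes x).symm
  have halg : ∀ b : B, algebraMap B ((QuadraticAlgebra C c 0) ⧸ J) b = ι (φ b) := fun b => rfl
  let om : (QuadraticAlgebra C c 0) ⧸ J := Ideal.Quotient.mk J (ω : QuadraticAlgebra C c 0)
  have hom : om * om = T • (1 : (QuadraticAlgebra C c 0) ⧸ J) + (0 : B) • om := by
    rw [zero_smul, add_zero, Algebra.smul_def, mul_one, halg, ← hc, hι, ← map_mul]
    congr 1
    ext <;> simp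
  let Ψ₁ : QuadraticAlgebra B T 0 →ₐ[B] ((QuadraticAlgebra C c 0) ⧸ J) := QuadraticAlgebra.lift ⟨om, hom⟩
  let Ψ₂ : QuadraticAlgebra B T 0 →ₐ[k] ((QuadraticAlgebra C c 0) ⧸ J) := Ψ₁.restrictScalars k
  obtain ⟨Ψ, hΨ⟩ := Algebra.FormallySmooth.comp_surjective k (QuadraticAlgebra B T 0) J hJ Ψ₂
  have hΨb : ∀ b : B, Ideal.Quotient.mk J (Ψ (algebraMap B (QuadraticAlgebra B T 0) b)) = ι (φ b) := by
    intro b
    have h1 := DFunLike.congr_fun hΨ (algebraMap B (QuadraticAlgebra B T 0) b)
    change Ideal.Quotient.mk J (Ψ _) = Ψ₁ (algebraMap B _ b) at h1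
    rw [h1, Ψ₁.commutes, halg]
  have him : ∀ b : B, (Ψ (algebraMap B (QuadraticAlgebra B T 0) b)).im ∈ I ∧
      Ideal.Quotient.mk I (Ψ (algebraMap B (QuadraticAlgebra B T 0) b)).re = φ b := by
    intro b
    obtain ⟨d, hd⟩ := Ideal.Quotient.mk_surjective (φ b)
    have h1 := hΨb b
    rw [← hd, hι, Ideal.Quotient.eq, hJmem] at h1
    obtain ⟨h2, h3⟩ := h1
    refine ⟨by simpa using h3, ?_⟩
    rw [← hd, Ideal.Quotient.eq]
    simpa using h2
  let g : B →ₐ[k] C :=
    { toFun := fun b => (Ψ (algebraMap B (QuadraticAlgebra B T 0) b)).re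
      map_one' := by simp
      map_zero' := by simp
      map_add' := fun x y => by simp
      map_mul' := fun x y => by
        rw [map_mul, map_mul]
        have : ∀ u w : (QuadraticAlgebra C c 0), (u * w).re = u.re * w.re + c * u.im * w.im := fun u w => by simp
        rw [this, mul_assoc, hI2 _ (him x).1 _ (him y).1]; simp
      commutes' := fun r => by
        have : algebraMap B (QuadraticAlgebra B T 0) (algebraMap k B r) =
          algebraMap k (QuadraticAlgebra B T 0) r := (IsScalarTower.algebraMap_apply k B _ r).symm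
        rw [this, Ψ.commutes, IsScalarTower.algebraMap_apply k C (QuadraticAlgebra C c 0) r]
        simp }
  exact ⟨g, AlgHom.ext fun b => (him b).2⟩

/-- General form: `A` is an algebra over `B`, `1, t` is a basis of `A` over `B` and `t^2 = T` lies in `B`. -/
theorem formallySmooth_of_basis {k B A : Type*} [CommRing k] [CommRing B] [CommRing A] [Algebra k B]
    [Algebra k A] [Algebra B A] [IsScalarTower k B A] (t : A) (T : B) (ht : t * t = algebraMap B A T)
    (hsurj : ∀ a : A, ∃ b c : B, a = algebraMap B A b + algebraMap B A c * t)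
    (hinj : ∀ b c : B, algebraMap B A b + algebraMap B A c * t = 0 → b = 0 ∧ c = 0)
    [h : Algebra.FormallySmooth k A] : Algebra.FormallySmooth k B := by
  let e₀ : QuadraticAlgebra B T 0 →ₐ[B] A :=
    QuadraticAlgebra.lift ⟨t, by rw [zero_smul, add_zero, Algebra.smul_def, mul_one, ht]⟩
  have he : ∀ x : QuadraticAlgebra B T 0, e₀ x = algebraMap B A x.re + algebraMap B A x.im * t := by
    intro x
    have hx : x = algebraMap B _ x.re + algebraMap B _ x.im * ω := by ext <;> simp
    have hω : e₀ ω = t := by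
      have := (QuadraticAlgebra.lift (R := B) (a := T) (b := 0) (A := A)).symm_apply_apply
        ⟨t, by rw [zero_smul, add_zero, Algebra.smul_def, mul_one, ht]⟩
      exact congrArg Subtype.val this
    conv_lhs => rw [hx]
    rw [map_add, map_mul, e₀.commutes, e₀.commutes, hω]
  have hbij : Function.Bijective e₀ := by
    refine ⟨?_, fun a => ?_⟩
    · rw [injective_iff_map_eq_zero]
      intro x hx
      rw [he] at hx
      obtain ⟨h1, h2⟩ := hinj _ _ hx
      ext <;> simp [h1, h2]
    · obtain ⟨b, c, rfl⟩ := hsurj a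
      exact ⟨⟨b, c⟩, by rw [he]⟩
  let e : QuadraticAlgebra B T 0 ≃ₐ[B] A := AlgEquiv.ofBijective e₀ hbij
  have : Algebra.FormallySmooth k (QuadraticAlgebra B T 0) :=
    Algebra.FormallySmooth.of_equiv (e.restrictScalars k).symm
  exact formallySmooth_of_quadratic (k := k) T

end Pool.Agent.Helper13.FQ
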